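import Pool.Agent.P.MP_9167e9_an.Ws.Basic

/-!
The windmill argument: a Greendlinger lemma for rotation groups.
-/

noncomputable section
open scoped Classical

namespace Pool.Agent.P.MP_9167e9_an

namespace WS

variable {X J : Type} {C : Type 1} [Group X] (w : WS X J C)

/-- If the path from `y` to `Q` runs along `R`, then `y` projects to `Q` like a point of `R`. -/
lemma gbeh {Q R : C} {y : X} (h : w.θ R < w.run R y (w.π Q y)) :
    w.π Q (w.π R y) = w.π Q y := by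
  apply w.π_btw
  have h1 := w.pass_in h
  rw [w.d_comm (w.π Q y) y, w.d_comm (w.π Q y) (w.π R y), w.d_comm (w.π R y) y]
  omega

lemma run_K {Q : C} {k : X} (hk : k ∈ w.K Q) (x y : X) :
    w.run Q (x * k) (y * k) = w.run Q x y := by
  have := w.run_ac Q x y k
  rwa [w.K_fix Q k hk] at this

lemma run_disp {Q : C} {k : X} (hk : k ∈ w.K Q) (h1 : k ≠ 1) (x : X) :
    w.g Q ≤ w.run Q x (x * k) := by
  unfold run
  rw [w.π_K hk]
  exact w.disp Q k _ hk h1 (w.π_mem Q x)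

/-- A stage of the windmill. -/
structure Mill (x : X) (V : Set X) (S : Set C) (G : Subgroup X) : Prop where
  base : x ∈ V
  V_mul : ∀ v ∈ V, ∀ g ∈ G, v * g ∈ V
  S_mul : ∀ Q ∈ S, ∀ g ∈ G, w.ac Q g ∈ S
  K_sub : ∀ Q ∈ S, w.K Q ≤ G
  small : ∀ Q, Q ∉ S → ∀ u ∈ V, ∀ v ∈ V, w.run Q u v ≤ 5 * w.θ Q
  green : ∀ k ∈ G, k ≠ 1 → ∃ Q, ∃ κ ∈ w.K Q, κ ≠ 1 ∧
    w.d (w.π Q (x * k)) (w.π Q x * κ) ≤ 15 * w.θ Q

/-- The neighbourhood of a set. -/
def nb (V : Set X) : Set X := {z | ∃ u ∈ V, w.d u z ≤ 1}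

/-- The new cells. -/
def fresh (V : Set X) (S : Set C) : Set C :=
  {R | R ∉ S ∧ ∃ u ∈ w.nb V, ∃ v ∈ w.nb V, w.θ R < w.run R u v}

/-- Normal forms; the index is the cell of the last rotation. -/
inductive Ch (G : Subgroup X) (F : Set C) : Option C → X → Prop
  | base {g : X} : g ∈ G → Ch G F none g
  | step {o : Option C} {h : X} {Q : C} {κ : X} : Ch G F o h → o ≠ some Q → Q ∈ F →
      κ ∈ w.K Q → κ ≠ 1 → Ch G F (some Q) (h * κ)

section Alg

variable {w} {G : Subgroup X} {F : Set C}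

lemma Ch.mul_G (hF : ∀ Q ∈ F, ∀ g ∈ G, w.ac Q g ∈ F) {o : Option C} {h : X}
    (c : w.Ch G F o h) {g : X} (hg : g ∈ G) : w.Ch G F (o.map fun Q => w.ac Q g) (h * g) := by
  induction c with
  | base hb => exact Ch.base (G.mul_mem hb hg)
  | @step o h Q κ _ ho hQ hκ h1 ih =>
    have e : h * κ * g = h * g * (g⁻¹ * κ * g) := by simp [mul_assoc]
    rw [e]
    refine Ch.step ih ?_ (hF Q hQ g hg) (w.K_ac Q κ g hκ) ?_
    · intro he
      apply ho
      cases o with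
      | none => simp at he
      | some Q' =>
        simp only [Option.map_some, Option.some.injEq] at he
        rw [w.ac_inj he]
    · intro he
      apply h1
      have : κ = g * (g⁻¹ * κ * g) * g⁻¹ := by simp [mul_assoc]
      rw [this, he]; simp

lemma Ch.inv_some {Q : C} {h : X} (c : w.Ch G F (some Q) h) :
    ∃ o h' κ, w.Ch G F o h' ∧ o ≠ some Q ∧ Q ∈ F ∧ κ ∈ w.K Q ∧ κ ≠ 1 ∧ h = h' * κ := by
  generalize he : some Q = o at c
  cases c with
  | base _ => simp at he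
  | @step o h Q' κ c ho hQ hκ h1 =>
    obtain rfl : Q = Q' := Option.some.inj he
    exact ⟨o, h, κ, c, ho, hQ, hκ, h1, rfl⟩

lemma Ch.inv_none {h : X} (c : w.Ch G F none h) : h ∈ G := by
  generalize he : (none : Option C) = o at c
  cases c with
  | base hb => exact hb
  | step => simp at he

lemma Ch.mul_K {o : Option C} {h : X} (c : w.Ch G F o h) {Q : C} (hQ : Q ∈ F) {κ : X}
    (hκ : κ ∈ w.K Q) : ∃ o', w.Ch G F o' (h * κ) := by
  by_cases h1 : κ = 1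
  · exact ⟨o, by rwa [h1, mul_one]⟩
  by_cases ho : o = some Q
  · subst ho
    obtain ⟨o', h', κ', c', ho', -, hκ', -, rfl⟩ := c.inv_some
    by_cases h2 : κ' * κ = 1
    · exact ⟨o', by rwa [mul_assoc, h2, mul_one]⟩
    · exact ⟨_, by rw [mul_assoc]; exact Ch.step c' ho' hQ ((w.K Q).mul_mem hκ' hκ) h2⟩
  · exact ⟨_, Ch.step c ho hQ hκ h1⟩

/-- Every element of the enlarged group has a normal form. -/
lemma ch_ex (hF : ∀ Q ∈ F, ∀ g ∈ G, w.ac Q g ∈ F) {k : X}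
    (hk : k ∈ G ⊔ ⨆ Q : F, w.K Q) : ∃ o, w.Ch G F o k := by
  let H : Subgroup X :=
    { carrier := {k | (∀ o h, w.Ch G F o h → ∃ o', w.Ch G F o' (h * k)) ∧
        ∀ o h, w.Ch G F o h → ∃ o', w.Ch G F o' (h * k⁻¹)}
      one_mem' := ⟨fun o h c => ⟨o, by rwa [mul_one]⟩, fun o h c => ⟨o, by simpa using c⟩⟩
      mul_mem' := by
        rintro a b ⟨a1, a2⟩ ⟨b1, b2⟩
        refine ⟨fun o h c => ?_, fun o h c => ?_⟩
        · obtain ⟨o1, c1⟩ := a1 o h c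
          rw [← mul_assoc]; exact b1 o1 _ c1
        · obtain ⟨o1, c1⟩ := b2 o h c
          rw [mul_inv_rev, ← mul_assoc]; exact a2 o1 _ c1
      inv_mem' := by
        rintro a ⟨a1, a2⟩
        exact ⟨a2, by simpa using a1⟩ }
  have hle : G ⊔ ⨆ Q : F, w.K Q ≤ H := by
    refine sup_le (fun g hg => ⟨fun o h c => ⟨_, c.mul_G hF hg⟩,
      fun o h c => ⟨_, c.mul_G hF (G.inv_mem hg)⟩⟩) (iSup_le fun Q κ hκ => ?_)
    exact ⟨fun o h c => c.mul_K Q.2 hκ, fun o h c => c.mul_K Q.2 ((w.K Q).inv_mem hκ)⟩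
  obtain ⟨o, c⟩ := (hle hk).1 none 1 (Ch.base G.one_mem)
  exact ⟨o, by rwa [one_mul] at c⟩

end Alg

section Step

variable {w} {x : X} {V : Set X} {S : Set C} {G : Subgroup X}

lemma sub_nb {v : X} (hv : v ∈ V) : v ∈ w.nb V := ⟨v, hv, by rw [w.d_self]; omega⟩

lemma Mill.nb_mul (m : w.Mill x V S G) {v : X} (hv : v ∈ w.nb V) {g : X} (hg : g ∈ G) :
    v * g ∈ w.nb V := by
  obtain ⟨u, hu, hd⟩ := hv
  exact ⟨u * g, m.V_mul u hu g hg, by rwa [w.d_mul]⟩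

lemma Mill.nb_small (m : w.Mill x V S G) {Q : C} (hQ : Q ∉ S) {u v : X} (hu : u ∈ w.nb V)
    (hv : v ∈ w.nb V) : w.run Q u v ≤ 7 * w.θ Q := by
  obtain ⟨u', hu', du⟩ := hu
  obtain ⟨v', hv', dv⟩ := hv
  have h1 := m.small Q hQ u' hu' v' hv'
  have h2 := w.run_le Q u' u
  have h3 := w.run_le Q v' v
  have h4 := w.run_tri Q u u' v
  have h5 := w.run_tri Q u' v' v
  have h6 := w.run_comm Q u u'
  have h7 := w.θ_pos Q
  omega

lemma Mill.fresh_mul (m : w.Mill x V S G) :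
    ∀ Q ∈ w.fresh V S, ∀ g ∈ G, w.ac Q g ∈ w.fresh V S := by
  rintro Q ⟨hQ, u, hu, v, hv, h⟩ g hg
  refine ⟨fun hS => hQ ?_, u * g, m.nb_mul hu hg, v * g, m.nb_mul hv hg, ?_⟩
  · have := m.S_mul _ hS g⁻¹ (G.inv_mem hg)
    rwa [w.ac_inv] at this
  · rwa [w.run_ac, w.θ_ac]

/-- A new cell projects near the neighbourhood. -/
lemma fresh_near {R Q : C} (hR : R ∈ w.fresh V S) (hne : Q ≠ R) {t : ℕ}
    (ht : ∀ u ∈ w.nb V, ∀ v ∈ w.nb V, w.run Q u v ≤ t) {r : X} (hr : r ∈ w.cell R) :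
    ∃ u ∈ w.nb V, w.run Q u r ≤ t + w.θ Q := by
  obtain ⟨-, u, hu, v, hv, h⟩ := hR
  refine ⟨u, hu, ?_⟩
  have h1 := w.run_add Q (w.pass_in h)
  have h2 := ht u hu v hv
  have h3 := w.run_cell hne (w.π_mem R u) hr
  have h4 := w.run_tri Q u (w.π R u) r
  omega

lemma Mill.fresh15 (m : w.Mill x V S G) {R Q : C} (hR : R ∈ w.fresh V S) (hQ : Q ∉ S)
    (hne : Q ≠ R) {r : X} (hr : r ∈ w.cell R) {v : X} (hv : v ∈ w.nb V) :
    w.run Q v r ≤ 15 * w.θ Q := by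
  obtain ⟨u, hu, h⟩ := fresh_near hR hne (fun u hu v hv => m.nb_small hQ hu hv) hr
  have h1 := m.nb_small hQ hv hu
  have h2 := w.run_tri Q v u r
  omega

/-- The chain lemma. -/
lemma Mill.chain (m : w.Mill x V S G) {o : Option C} {h : X} (c : w.Ch G (w.fresh V S) o h) :
    ∀ R ∈ w.fresh V S, o ≠ some R → ∀ u ∈ w.nb V, ∀ v ∈ w.nb V,
      w.run R u (v * h) ≤ 15 * w.θ R := by
  induction c with
  | base hb =>
    intro R hR _ u hu v hv
    have := m.nb_small hR.1 hu (m.nb_mul hv hb)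
    omega
  | @step o h Q κ _ ho hQ hκ h1 ih =>
    intro R hR hne u hu v hv
    have hQR : Q ≠ R := fun e => hne (by rw [e])
    have a1 := ih Q hQ ho u hu v hv
    rw [← w.run_K hκ, mul_assoc] at a1
    have a2 := w.run_disp hκ h1 u
    have a3 := m.fresh15 hR hQ.1 hQR (w.π_mem R (v * (h * κ))) hu
    have a4 := w.run_tri Q u (w.π R (v * (h * κ))) (u * κ)
    have a5 := w.run_tri Q (w.π R (v * (h * κ))) (v * (h * κ)) (u * κ)
    have a6 := w.run_comm Q (v * (h * κ)) (u * κ)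
    have a7 := w.run_comm Q (w.π R (v * (h * κ))) (v * (h * κ))
    have a8 := w.big Q
    have a9 := w.θ_pos Q
    have b := w.gbeh (Q := R) (R := Q) (y := v * (h * κ)) (by omega)
    have b2 := m.fresh15 hQ hR.1 hQR.symm (w.π_mem Q (v * (h * κ))) hu
    unfold run at b2 ⊢
    rwa [b] at b2

/-- The points attached to the present stage. -/
def Att (w : WS X J C) (V : Set X) (S : Set C) (o : Option C) (z : X) : Prop :=
  z ∈ w.nb V ∨ ∃ R ∈ w.fresh V S, o ≠ some R ∧ z ∈ w.cell R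

lemma att_small {Q : C} (hS : Q ∉ S) (hF : Q ∉ w.fresh V S) {o o' : Option C} {z z' : X}
    (hz : w.Att V S o z) (hz' : w.Att V S o' z') : w.run Q z z' ≤ 5 * w.θ Q := by
  have hs : ∀ u ∈ w.nb V, ∀ v ∈ w.nb V, w.run Q u v ≤ w.θ Q := fun u hu v hv => by
    by_contra hc
    exact hF ⟨hS, u, hu, v, hv, by omega⟩
  have key : ∀ o z, w.Att V S o z → ∃ u ∈ w.nb V, w.run Q u z ≤ 2 * w.θ Q := by
    rintro o z (hz | ⟨R, hR, -, hz⟩)
    · exact ⟨z, hz, by rw [w.run_self]; omega⟩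
    · obtain ⟨u, hu, h⟩ := fresh_near hR (Q := Q) (fun e => hF (e ▸ hR)) hs hz
      exact ⟨u, hu, by omega⟩
  obtain ⟨u, hu, h1⟩ := key _ _ hz
  obtain ⟨v, hv, h2⟩ := key _ _ hz'
  have h3 := hs u hu v hv
  have h4 := w.run_tri Q z u z'
  have h5 := w.run_tri Q u v z'
  have h6 := w.run_comm Q z u
  omega

/-- Cells that are not yet used see the whole next stage as a small set. -/
lemma Mill.out (m : w.Mill x V S G) {H : Subgroup X} (hH : ∀ R ∈ w.fresh V S, w.K R ≤ H)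
    {o : Option C} {h : X} (c : w.Ch G (w.fresh V S) o h) :
    ∀ Q, (∀ k ∈ H, w.ac Q k ∉ S ∧ w.ac Q k ∉ w.fresh V S) → ∀ z, w.Att V S o z →
      ∀ v ∈ w.nb V, w.run Q z (v * h) ≤ 5 * w.θ Q := by
  induction c with
  | base hb =>
    intro Q hQ z hz v hv
    have h0 := hQ 1 H.one_mem
    rw [w.ac_one] at h0
    exact att_small h0.1 h0.2 hz (o' := none) (Or.inl (m.nb_mul hv hb))
  | @step o h R κ c ho hR hκ h1 ih =>
    intro Q hQ z hz v hv
    have h0 := hQ 1 H.one_mem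
    rw [w.ac_one] at h0
    have hRQ : R ≠ Q := fun e => h0.2 (e ▸ hR)
    by_cases hc : w.θ R < w.run R (v * (h * κ)) (w.π Q (v * (h * κ)))
    · have b := w.gbeh hc
      have b2 := att_small h0.1 h0.2 hz (o' := none)
        (Or.inr ⟨R, hR, by simp, w.π_mem R (v * (h * κ))⟩)
      unfold run at b2 ⊢
      rwa [b] at b2
    · have a1 := m.chain c R hR ho v hv v hv
      rw [← w.run_K hκ, mul_assoc] at a1
      have a2 := w.run_disp hκ h1 v
      have a3 : w.run R v z ≤ 15 * w.θ R := by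
        rcases hz with hz | ⟨R', hR', hne, hz⟩
        · have := m.nb_small hR.1 hv hz
          omega
        · exact m.fresh15 hR' hR.1 (fun e => hne (by rw [e])) hz hv
      have a4 := w.run_cell hRQ (w.π_mem Q z) (w.π_mem Q (v * (h * κ)))
      have a5 := w.run_tri R v z (v * κ)
      have a6 := w.run_tri R z (w.π Q z) (v * κ)
      have a7 := w.run_tri R (w.π Q z) (w.π Q (v * (h * κ))) (v * κ)
      have a8 := w.run_tri R (w.π Q (v * (h * κ))) (v * (h * κ)) (v * κ)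
      have a9 := w.run_comm R (w.π Q (v * (h * κ))) (v * (h * κ))
      have a10 := w.run_comm R (v * (h * κ)) (v * κ)
      have a11 := w.big R
      have a12 := w.θ_pos R
      have b := w.gbeh (Q := Q) (R := R) (y := z) (by omega)
      have hκ' : κ⁻¹ ∈ w.K R := (w.K R).inv_mem hκ
      have i := ih (w.ac Q κ⁻¹) (fun k hk => by
          rw [w.ac_mul]; exact hQ _ (H.mul_mem (hH R hR hκ') hk)) (w.π R z * κ⁻¹)
        (Or.inr ⟨R, hR, ho, w.cell_K (w.π_mem R z) hκ'⟩) v hv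
      have e : v * h = v * (h * κ) * κ⁻¹ := by simp [mul_assoc]
      rw [e, w.run_ac, w.θ_ac] at i
      unfold run at i ⊢
      rwa [b] at i

lemma Mill.next (m : w.Mill x V S G) : ∃ V' S' G', w.Mill x V' S' G' ∧ w.nb V ⊆ V' := by
  set F := w.fresh V S with hF
  set H : Subgroup X := G ⊔ ⨆ Q : F, w.K Q with hH
  have hGH : G ≤ H := le_sup_left
  have hFH : ∀ R ∈ F, w.K R ≤ H := fun R hR =>
    (le_iSup (fun Q : F => w.K Q) ⟨R, hR⟩).trans le_sup_right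
  refine ⟨{z | ∃ v ∈ w.nb V, ∃ h ∈ H, z = v * h},
    {Q | ∃ k ∈ H, w.ac Q k ∈ S ∨ w.ac Q k ∈ F}, H, ⟨?_, ?_, ?_, ?_, ?_, ?_⟩, ?_⟩
  · exact ⟨x, sub_nb m.base, 1, H.one_mem, (mul_one x).symm⟩
  · rintro _ ⟨v, hv, h, hh, rfl⟩ g hg
    exact ⟨v, hv, h * g, H.mul_mem hh hg, mul_assoc _ _ _⟩
  · rintro Q ⟨k, hk, hQ⟩ g hg
    refine ⟨g⁻¹ * k, H.mul_mem (H.inv_mem hg) hk, ?_⟩
    rwa [w.ac_mul, mul_inv_cancel_left]
  · rintro Q ⟨k, hk, hQ⟩ κ hκ
    have h1 : k⁻¹ * κ * k ∈ H := by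
      rcases hQ with hQ | hQ
      · exact hGH (m.K_sub _ hQ (w.K_ac Q κ k hκ))
      · exact hFH _ hQ (w.K_ac Q κ k hκ)
    have h2 := H.mul_mem (H.mul_mem hk h1) (H.inv_mem hk)
    simpa [mul_assoc] using h2
  · rintro Q hQ _ ⟨u, hu, g, hg, rfl⟩ _ ⟨v, hv, h, hh, rfl⟩
    obtain ⟨o, c⟩ := ch_ex m.fresh_mul (H.mul_mem hh (H.inv_mem hg))
    have i := m.out hFH c (w.ac Q g⁻¹) (fun k hk => by
      rw [w.ac_mul]
      have hk' := H.mul_mem (H.inv_mem hg) hk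
      exact ⟨fun hs => hQ ⟨_, hk', Or.inl hs⟩, fun hs => hQ ⟨_, hk', Or.inr hs⟩⟩)
      u (Or.inl hu) v hv
    have e : w.run Q (u * g) (v * h) = w.run (w.ac Q g⁻¹) u (v * (h * g⁻¹)) := by
      rw [← w.run_ac Q _ _ g⁻¹]; simp [mul_assoc]
    rwa [w.θ_ac, ← e] at i
  · intro k hk h1
    obtain ⟨o, c⟩ := ch_ex m.fresh_mul hk
    cases o with
    | none => exact m.green k c.inv_none h1
    | some R =>
      obtain ⟨o', h', κ, c', ho', hR, hκ, hκ1, rfl⟩ := c.inv_some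
      refine ⟨R, κ, hκ, hκ1, ?_⟩
      have i := m.chain c' R hR ho' x (sub_nb m.base) x (sub_nb m.base)
      rw [← mul_assoc, w.π_K hκ, w.d_mul, w.d_comm]
      exact i
  · exact fun v hv => ⟨v, hv, 1, H.one_mem, (mul_one v).symm⟩

end Step

lemma mill_ex (x : X) (n : ℕ) : ∃ V S G, w.Mill x V S G ∧ ∀ z, w.d x z ≤ n → z ∈ V := by
  induction n with
  | zero =>
    refine ⟨{x}, ∅, ⊥, ⟨rfl, ?_, by simp, by simp, ?_, ?_⟩, fun z hz => ?_⟩
    · intro v hv g hg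
      rw [Subgroup.mem_bot.1 hg, mul_one]; exact hv
    · rintro Q - u rfl v rfl
      rw [w.run_self]; omega
    · exact fun k hk h1 => absurd (Subgroup.mem_bot.1 hk) h1
    · exact ((w.d_zero x z).1 (by omega)).symm
  | succ n ih =>
    obtain ⟨V, S, G, m, hV⟩ := ih
    obtain ⟨V', S', G', m', hs⟩ := m.next
    refine ⟨V', S', G', m', fun z hz => hs ?_⟩
    by_cases h : w.d x z ≤ n
    · exact sub_nb (hV z h)
    · obtain ⟨y, h1, h2⟩ := w.between x z n (by omega)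
      exact ⟨y, hV y h1.le, by omega⟩

lemma KK_bound (x : X) {k : X} (hk : k ∈ w.KK) :
    ∃ n, ∀ V S G, w.Mill x V S G → (∀ z, w.d x z ≤ n → z ∈ V) → k ∈ G := by
  refine Subgroup.iSup_induction w.K
    (C := fun k => ∃ n, ∀ V S G, w.Mill x V S G → (∀ z, w.d x z ≤ n → z ∈ V) → k ∈ G) hk
    ?_ ⟨0, fun V S G _ _ => G.one_mem⟩ ?_
  · intro Q κ hκ
    refine ⟨w.d x (x * κ), fun V S G m hV => ?_⟩
    by_cases h1 : κ = 1
    · rw [h1]; exact G.one_mem
    by_cases hQ : Q ∈ S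
    · exact m.K_sub Q hQ hκ
    have a1 := m.small Q hQ x m.base _ (hV _ le_rfl)
    have a2 := w.run_disp hκ h1 x
    have a3 := w.big Q
    have a4 := w.θ_pos Q
    omega
  · rintro a b ⟨n, ha⟩ ⟨n', hb⟩
    exact ⟨max n n', fun V S G m hV =>
      G.mul_mem (ha V S G m fun z hz => hV z (hz.trans (le_max_left _ _)))
        (hb V S G m fun z hz => hV z (hz.trans (le_max_right _ _)))⟩

/-- The Greendlinger lemma. -/
theorem green : ∀ k ∈ w.KK, k ≠ 1 → ∀ x, ∃ Q, ∃ κ ∈ w.K Q, κ ≠ 1 ∧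
    w.d (w.π Q (x * k)) (w.π Q x * κ) ≤ 15 * w.θ Q := by
  intro k hk h1 x
  obtain ⟨n, hn⟩ := w.KK_bound x hk
  obtain ⟨V, S, G, m, hV⟩ := w.mill_ex x n
  exact m.green k (hn V S G m hV) h1

end WS

end Pool.Agent.P.MP_9167e9_an
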