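import Pool.Agent.P.MP_9167e9_an.Ws.Asm
import Pool.Agent.P.MP_9167e9_an.Ws.Green

/-!
The small cancellation theory.
-/

namespace Pool.Agent.P.MP_9167e9_an

theorem pWS : StWS := fun _ _ _ _ w => w.out_of_green w.green

end Pool.Agent.P.MP_9167e9_an
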