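import Pool.Agent.P.MP_9167e9_an.Ws.Basic

/-!
Two good points of one orbit pass through a common heavy cell.
-/

noncomputable section
open scoped Classical

namespace Pool.Agent.P.MP_9167e9_an

namespace WS

variable {X J : Type} {C : Type 1} [Group X] (w : WS X J C)

/-- The Greendlinger property. -/
def GreenP : Prop :=
  ∀ k ∈ w.KK, k ≠ 1 → ∀ x, ∃ Q, ∃ κ ∈ w.K Q, κ ≠ 1 ∧
    w.d (w.π Q (x * k)) (w.π Q x * κ) ≤ 15 * w.θ Q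

lemma good_K {B : C} {x k : X} (h : w.Good B x) (hk : k ∈ w.K B) : w.Good B (x * k) := by
  have := w.good_ac B x k h
  rwa [w.K_fix B k hk] at this

lemma heavy_K {B Q : C} {x k : X} (h : w.Heavy B Q x) (hk : k ∈ w.K B) :
    w.Heavy B (w.ac Q k) (x * k) := by
  have := w.heavy_ac B Q x k h
  rwa [w.K_fix B k hk] at this

lemma shorten {Q : C} {x y κ : X} (hκ : κ ∈ w.K Q) (h1 : κ ≠ 1)
    (h : w.d (w.π Q y) (w.π Q x * κ) ≤ 15 * w.θ Q) : w.d x (y * κ⁻¹) < w.d x y := by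
  have t1 := w.disp Q κ _ hκ h1 (w.π_mem Q x)
  have t2 := w.d_tri (w.π Q x) (w.π Q y) (w.π Q x * κ)
  have t3 := w.big Q
  have t4 := w.θ_pos Q
  have t5 := w.pass Q x y (by unfold run; omega)
  have t6 := w.d_mul x (y * κ⁻¹) κ
  rw [inv_mul_cancel_right] at t6
  have t7 := w.d_tri (x * κ) (w.π Q x * κ) y
  have t8 := w.d_tri (w.π Q x * κ) (w.π Q y) y
  have t9 := w.d_mul x (w.π Q x) κ
  have t10 := w.d_comm (w.π Q y) (w.π Q x * κ)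
  unfold run at t5
  omega

lemma both_heavy {B B' Q : C} {u u' κ : X} (hu : w.Good B u) (hu' : w.Good B' u')
    (hκ : κ ∈ w.K Q) (h1 : κ ≠ 1) (hm : w.run Q u u' ≤ w.θ Q)
    (ha : w.d (w.π Q (w.π B' u')) (w.π Q (w.π B u) * κ) ≤ 17 * w.θ Q) :
    w.Heavy B Q u ∧ w.Heavy B' Q u' := by
  have g1 := hu Q _ ((w.K Q).inv_mem hκ)
  have g2 := hu' Q _ hκ
  have t1 := w.disp Q κ _ hκ h1 (w.π_mem Q (w.π B u))
  unfold Heavy
  unfold run at g1 g2 hm ⊢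
  generalize w.π Q (w.π B u) = a at *
  generalize w.π Q (w.π B' u') = a' at *
  generalize w.π Q u = m at *
  generalize w.π Q u' = m' at *
  have e1 := w.d_mul a (m * κ⁻¹) κ
  rw [inv_mul_cancel_right] at e1
  have s1 := w.d_tri (a * κ) a' m
  have s2 := w.d_tri a' m' m
  have s3 := w.d_tri a' (a * κ) (m' * κ)
  have s4 := w.d_mul a m' κ
  have s5 := w.d_tri a m m'
  have s6 := w.d_tri a m' (a * κ)
  have s7 := w.d_tri m' a' (a * κ)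
  have c1 := w.d_comm a' (a * κ)
  have c2 := w.d_comm m m'
  have c3 := w.d_comm m' a'
  have t3 := w.big Q
  omega

lemma gl (hG : w.GreenP) (B : C) (K0 : Subgroup X) (hK0 : K0 ≤ w.KK) {k : X} (hk : k ∈ w.KK)
    {z z' : X} (hz : w.Good B z) (hz' : w.Good B z')
    (hcl : ∀ Q, w.K Q ≤ K0 ∨ ∀ κ ∈ K0, w.run Q z (z' * k⁻¹ * κ⁻¹) ≤ w.θ Q) :
    (∃ κ ∈ K0, κ * k ∈ w.K B) ∨
      ∃ Q, ∃ κ ∈ K0, w.Heavy B Q z ∧ w.Heavy B (w.ac Q (κ * k)) z' := by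
  have hex : ∃ n, ∃ α ∈ w.K B, ∃ β ∈ w.K B, ∃ κ ∈ K0,
      w.d (w.π B z) (w.π B z * (β⁻¹ * κ * k * α)⁻¹) = n :=
    ⟨_, 1, one_mem _, 1, one_mem _, 1, one_mem _, rfl⟩
  obtain ⟨α, hα, β, hβ, κ₀, hκ₀, e⟩ := Nat.find_spec hex
  obtain ⟨k₁, hk₁⟩ : ∃ k₁, k₁ = β⁻¹ * κ₀ * k * α := ⟨_, rfl⟩
  rw [← hk₁] at e
  by_cases h1 : k₁ = 1
  · refine Or.inl ⟨κ₀, hκ₀, ?_⟩
    have : κ₀ * k = β * k₁ * α⁻¹ := by rw [hk₁]; group
    rw [this, h1, mul_one]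
    exact mul_mem hβ (inv_mem hα)
  right
  have hKK : k₁⁻¹ ∈ w.KK := hk₁ ▸ inv_mem (mul_mem (mul_mem (mul_mem
    (inv_mem (w.K_le B hβ)) (hK0 hκ₀)) hk) (w.K_le B hα))
  obtain ⟨Q, κ, hκ, hκ1, hd⟩ := hG _ hKK (inv_ne_one.2 h1) (w.π B z)
  have hlt := w.shorten hκ hκ1 hd
  have hno : ∀ α ∈ w.K B, ∀ β ∈ w.K B, ∀ κ' ∈ K0, κ * k₁ ≠ β⁻¹ * κ' * k * α :=
    fun α hα β hβ κ' hκ' h => by
      have := Nat.find_min' hex ⟨α, hα, β, hβ, κ', hκ', rfl⟩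
      rw [← h, mul_inv_rev, ← mul_assoc] at this
      omega
  have n1 : Q ≠ B := by
    rintro rfl
    exact hno α hα _ (mul_mem hβ (inv_mem hκ)) κ₀ hκ₀ (by rw [hk₁]; group)
  have n2 : Q ≠ w.ac B k₁⁻¹ := by
    rintro rfl
    exact hno _ (mul_mem hα (w.K_ac' hκ)) β hβ κ₀ hκ₀ (by rw [← mul_assoc, ← hk₁]; group)
  have n3 : w.run (w.ac Q β⁻¹) z (z' * k⁻¹ * κ₀⁻¹) ≤ w.θ (w.ac Q β⁻¹) := by
    refine ((hcl _).resolve_left fun h => ?_) κ₀ hκ₀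
    exact hno α hα β hβ _ (mul_mem (h (w.K_ac Q κ β⁻¹ hκ)) hκ₀) (by rw [hk₁]; group)
  rw [← w.run_ac _ _ _ β, ac_inv', w.θ_ac] at n3
  have e1 : z' * k⁻¹ * κ₀⁻¹ * β = z' * α * k₁⁻¹ := by rw [hk₁]; group
  rw [e1] at n3
  have t1 : w.d _ _ ≤ _ := w.run_cell n1 (w.π_mem B z) (w.π_mem B (z * β))
  have t2 : w.d _ _ ≤ _ := w.run_cell n2 (w.π_mem _ (z' * α * k₁⁻¹))
    (w.cell_ac _ _ k₁⁻¹ (w.π_mem B z))
  obtain ⟨H1, H2⟩ := w.both_heavy (w.good_K hz hβ) (w.good_ac _ _ k₁⁻¹ (w.good_K hz' hα)) hκ hκ1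
    n3 (by
      have s1 := w.d_tri (w.π Q (w.π (w.ac B k₁⁻¹) (z' * α * k₁⁻¹))) (w.π Q (w.π B z * k₁⁻¹))
        (w.π Q (w.π B (z * β)) * κ)
      have s2 := w.d_tri (w.π Q (w.π B z * k₁⁻¹)) (w.π Q (w.π B z) * κ)
        (w.π Q (w.π B (z * β)) * κ)
      have s3 := w.d_mul (w.π Q (w.π B z)) (w.π Q (w.π B (z * β))) κ
      omega)
  refine ⟨w.ac Q β⁻¹, κ₀, hκ₀, by simpa using w.heavy_K H1 (inv_mem hβ), ?_⟩
  have H3 := w.heavy_ac _ _ _ k₁ H2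
  rw [ac_inv', inv_mul_cancel_right] at H3
  have H4 := w.heavy_K H3 (inv_mem hα)
  rw [mul_inv_cancel_right, w.ac_mul] at H4
  rw [w.ac_mul]
  convert H4 using 2
  rw [hk₁]; group

lemma first (hG : w.GreenP) (B : C) (y k : X) (hk : k ∈ w.KK) (h : w.Good B y)
    (h' : w.Good B (y * k)) :
    k ∈ w.K B ∨ ∃ Q, w.Heavy B Q y ∧ w.Heavy (w.ac B k⁻¹) Q y := by
  rcases w.gl hG B ⊥ bot_le hk h h' (fun Q => Or.inr fun κ hκ => by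
    rw [Subgroup.mem_bot.1 hκ]; simp [run_self]) with ⟨κ, hκ, h1⟩ | ⟨Q, κ, hκ, h1, h2⟩
  · rw [Subgroup.mem_bot.1 hκ, one_mul] at h1; exact Or.inl h1
  · rw [Subgroup.mem_bot.1 hκ, one_mul] at h2
    have := w.heavy_ac _ _ _ k⁻¹ h2
    rw [ac_inv, mul_inv_cancel_right] at this
    exact Or.inr ⟨Q, h1, this⟩

lemma heavy_mono {B Q : C} {x z : X} (hz : w.d (w.π B x) x = w.d (w.π B x) z + w.d z x)
    (h : w.Heavy B Q z) : w.Heavy B Q x := by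
  unfold Heavy at h ⊢
  rw [w.π_btw hz] at h
  rw [w.run_add Q hz]
  omega

lemma cons_aux (hG : w.GreenP) (B : C) {y y' : X} (h : w.Good B y) (h' : w.Good B y') (n : ℕ) :
    ∀ Q, ∀ k ∈ w.KK, w.Heavy B Q y → w.Heavy B (w.ac Q k) y' →
      w.d (w.π B y) (w.π Q (w.π B y)) < n →
      ∃ Q, ∃ α ∈ w.K B, w.Heavy B Q y ∧ w.Heavy B Q (y' * α) := by
  induction n with
  | zero => intro _ _ _ _ _ h; omega
  | succ n ih =>
    intro Q k hk H H' hn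
    have p1 := w.pass_in (w.heavy_lt H)
    have p2 := w.pass_in (w.heavy_lt H')
    obtain ⟨e1, g1⟩ := w.good_sub B y _ p1 h
    obtain ⟨-, g2⟩ := w.good_sub B y' _ p2 h'
    rcases w.gl hG B (w.K Q) (w.K_le Q) hk g1 g2 (fun Q' => by
      by_cases hQ : Q' = Q
      · exact Or.inl (hQ ▸ le_rfl)
      · refine Or.inr fun κ hκ => w.run_cell hQ (w.π_mem Q _) (w.cell_K ?_ (inv_mem hκ))
        have := w.cell_ac _ _ k⁻¹ (w.π_mem (w.ac Q k) (w.π B y'))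
        rwa [ac_inv] at this) with ⟨κ, hκ, h1⟩ | ⟨Q₁, κ, hκ, h1, h2⟩
    · refine ⟨Q, _, inv_mem h1, H, ?_⟩
      have := w.heavy_K H' (inv_mem h1)
      rwa [w.ac_mul, show k * (κ * k)⁻¹ = κ⁻¹ by group, w.K_fix Q _ (inv_mem hκ)] at this
    · refine ih Q₁ _ (mul_mem (w.K_le Q hκ) hk) (w.heavy_mono p1 h1) (w.heavy_mono p2 h2) ?_
      have s1 := w.heavy_lt h1
      have s2 := w.pass _ _ _ s1
      rw [e1] at s1 s2
      omega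

lemma cons (hG : w.GreenP) (B : C) (y k : X) (hk : k ∈ w.KK) (h : w.Good B y)
    (h' : w.Good B (y * k)) :
    k ∈ w.K B ∨ ∃ Q, ∃ α ∈ w.K B, w.Heavy B Q y ∧ w.Heavy B Q (y * k * α) := by
  refine (w.first hG B y k hk h h').imp_right fun ⟨Q, h1, h2⟩ => ?_
  have h3 := w.heavy_ac _ _ _ k h2
  rw [ac_inv'] at h3
  exact w.cons_aux hG B h h' _ Q k hk h1 h3 (Nat.lt_succ_self _)

lemma gatecons (hG : w.GreenP) (B : C) (y k : X) (hk : k ∈ w.KK) (h : w.Good B y)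
    (h' : w.Good B (y * k)) : ∃ α ∈ w.K B, w.run B y (y * k * α) ≤ w.θ B := by
  rcases w.cons hG B y k hk h h' with h1 | ⟨Q, α, hα, h1, h2⟩
  · exact ⟨k⁻¹, inv_mem h1, by simp [run_self]⟩
  · refine ⟨α, hα, ?_⟩
    unfold run
    rw [← w.π_btw (w.pass_in (w.heavy_lt h1)), ← w.π_btw (w.pass_in (w.heavy_lt h2))]
    exact w.run_cell (w.heavy_ne h1).symm (w.π_mem Q _) (w.π_mem Q _)

end WS

end Pool.Agent.P.MP_9167e9_an
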