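import Pool.Agent.P.MP_9167e9_an.Ws.Basic

/-!
The shortening process.
-/

noncomputable section
open scoped Classical

namespace Pool.Agent.P.MP_9167e9_an

namespace WS

variable {X J : Type} {C : Type 1} [Group X] (w : WS X J C)

/-- The walls of `y` that are not surviving walls of `x`. -/
def New (B : C) (x y : X) : Finset J :=
  (w.WB B y).filter fun a => a ∉ w.WB B x ∨ a ∈ w.W x y

lemma WB_of_sec {B : C} {x y : X} {a : J} (ha : a ∈ w.WB B x) (h : a ∉ w.W x y) :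
    a ∈ w.WB B y := by
  unfold WB at ha ⊢
  rw [w.mem_W, w.ncross_sec (w.π_ncross ha) (w.π_mem B y) (w.π_mem B x), ← (w.nmem_W _ _ _).1 h]
  exact (w.mem_W _ _ _).1 ha

lemma mem_New {B : C} {x y : X} {a : J} : a ∈ w.New B x y ↔ a ∈ w.WB B y ∧ a ∈ w.W x y := by
  unfold New
  rw [Finset.mem_filter]
  refine and_congr_right fun h => ⟨fun h1 => h1.elim (fun h2 => ?_) id, Or.inr⟩
  by_contra h3
  exact h2 (w.WB_of_sec h (w.W_comm _ _ ▸ h3))

/-- Walls above a cell with a large defect are new. -/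
lemma above_new {B Q : C} {x y κ : X} (hx : w.Min B x) (hκ : κ ∈ w.K Q) (hne : Q ≠ B)
    (hd : 10 * w.d (w.π Q (w.π B y)) (w.π Q y * κ) + w.g Q < 10 * w.run Q (w.π B y) y)
    {a : J} (ha : a ∈ w.W (w.π Q y) y) : a ∈ w.W x y := by
  by_contra hn
  have h1 : a ∈ w.W (w.π Q y) x := by
    rw [w.mem_W, (w.nmem_W _ _ _).1 hn]; exact (w.mem_W _ _ _).1 ha
  have t1 : w.d _ _ ≤ _ := w.sep Q a x y _ (w.π_ncross ha) (w.π_mem Q y) h1 ha
  have t2 : w.d _ _ ≤ _ := w.run_cell hne (w.π_mem B x) (w.π_mem B y)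
  have t3 := w.min_geo hx Q κ hκ
  have t4 := w.big Q
  unfold run at t3 hd
  generalize w.π Q (w.π B x) = u at *
  generalize w.π Q (w.π B y) = u' at *
  generalize w.π Q x = m at *
  generalize w.π Q y = m' at *
  have s1 := w.d_tri u' u m'
  have s2 := w.d_tri u m m'
  have s3 := w.d_tri u u' (m * κ)
  have s4 := w.d_tri u' (m' * κ) (m * κ)
  have s5 := w.d_mul m' m κ
  have c1 := w.d_comm u u'
  have c2 := w.d_comm m m'
  omega

/-- Some wall inside a cell with a large defect is new. -/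
lemma inside_new {B Q : C} {x y κ : X} (hx : w.Min B x) (hκ : κ ∈ w.K Q) (hne : Q ≠ B)
    (hd : 10 * w.d (w.π Q (w.π B y)) (w.π Q y * κ) + w.g Q < 10 * w.run Q (w.π B y) y) :
    ∃ a ∈ w.W (w.π Q (w.π B y)) (w.π Q y), a ∈ w.W x y := by
  by_contra hn
  push Not at hn
  have t1 := w.d_add (w.π Q (w.π B y)) (w.π Q y) (w.π Q x) fun a ha hb =>
    hn a ha (w.W_comm _ _ ▸ ((w.π_W Q y x a).1 hb).1)
  have t2 : w.d _ _ ≤ _ := w.run_cell hne (w.π_mem B x) (w.π_mem B y)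
  have t3 := w.min_geo hx Q κ hκ
  have t4 := w.big Q
  unfold run at t3 hd
  generalize w.π Q (w.π B x) = u at *
  generalize w.π Q (w.π B y) = u' at *
  generalize w.π Q x = m at *
  generalize w.π Q y = m' at *
  have s1 := w.d_tri u' u m
  have s3 := w.d_tri u u' (m * κ)
  have s4 := w.d_tri u' (m' * κ) (m * κ)
  have s5 := w.d_mul m' m κ
  have c1 := w.d_comm u u'
  omega

lemma proc_step {B : C} {x y : X} {t δ₀ : ℕ} {N N' : J → Prop} (hx : w.Min B x)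
    (hN : ∀ a, N a → N' a) (hK : ∀ a, ∀ k ∈ w.KK, N a → N (w.aw a k))
    (hQ : ∀ Q, w.g Q ≤ 20 * t → w.δ Q ≤ δ₀ ∧ ∀ a a', w.Cross a (w.cell Q) → N a →
      w.Cross a' (w.cell Q) → N' a')
    (hy : ¬ w.Good B y) (hlow : ∀ k ∈ w.KK, w.d (w.π B y) y ≤ w.d (w.π B (y * k)) (y * k) + 2 * t)
    (h1 : ∀ a ∈ w.New B x y, N a) :
    ∃ κ ∈ w.KK, w.d (w.π B (y * κ)) (y * κ) < w.d (w.π B y) y ∧
      (∀ a ∈ w.W y (y * κ), N' a) ∧ (w.New B x (y * κ)).card ≤ (w.New B x y).card + δ₀ := by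
  unfold Good at hy
  push Not at hy
  obtain ⟨Q, κ₁, hκ₁, hd₁⟩ := hy
  obtain ⟨κ₂, hκ₂, hd₂⟩ := w.cov Q _ _ (w.π_mem Q (w.π B y)) (w.π_mem Q y)
  obtain ⟨κ, hκ, hd, hδ⟩ : ∃ κ ∈ w.K Q,
      10 * w.d (w.π Q (w.π B y)) (w.π Q y * κ) + w.g Q < 10 * w.run Q (w.π B y) y ∧
      w.d (w.π Q (w.π B y)) (w.π Q y * κ) ≤ w.δ Q := by
    by_cases h : w.d (w.π Q (w.π B y)) (w.π Q y * κ₁) ≤ w.δ Q
    · exact ⟨κ₁, hκ₁, hd₁, h⟩
    · exact ⟨κ₂, hκ₂, by omega, hd₂⟩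
  have hne : Q ≠ B := by
    rintro rfl
    rw [run_base] at hd; omega
  have t1 := w.big Q
  have t2 := w.θ_pos Q
  have hlt : w.θ Q < w.run Q (w.π B y) y := by omega
  have p := w.pass Q _ _ hlt
  have t3 := w.π_le B (y * κ) (w.π_mem B y)
  have t4 := w.d_tri (w.π B y) (w.π Q (w.π B y)) (y * κ)
  have t5 := w.d_tri (w.π Q (w.π B y)) (w.π Q y * κ) (y * κ)
  have t6 := w.d_mul (w.π Q y) y κ
  have t7 := hlow κ (w.K_le Q hκ)
  obtain ⟨hδ', hprop⟩ := hQ Q (by omega)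
  have hab : ∀ a ∈ w.W (w.π Q y) y, a ∈ w.New B x y := fun a ha =>
    w.mem_New.2 ⟨w.btw_right (w.pass_out hlt) ha, w.above_new hx hκ hne hd ha⟩
  have hcr : ∀ a, w.Cross a (w.cell Q) → N' a := fun a ha => by
    obtain ⟨a₀, h2, h3⟩ := w.inside_new hx hκ hne hd
    obtain ⟨h4, h5⟩ := (w.π_W Q _ _ a₀).1 h2
    exact hprop a₀ a h5 (h1 a₀ (w.mem_New.2 ⟨h4, h3⟩)) ha
  have hmk := w.cell_K (w.π_mem Q y) hκ
  refine ⟨κ, w.K_le Q hκ, by omega, fun a ha => ?_, ?_⟩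
  · rcases Finset.mem_union.1 (w.W_sub y (w.π Q y) _ ha) with h | h
    · exact hN a (h1 a (hab a (w.W_comm _ _ ▸ h)))
    rcases Finset.mem_union.1 (w.W_sub _ (w.π Q y * κ) _ h) with h | h
    · exact hcr a (w.cross_of (w.π_mem Q y) hmk h)
    · rw [w.W_mul, Finset.mem_image] at h
      obtain ⟨b, hb, rfl⟩ := h
      exact hN _ (hK b κ (w.K_le Q hκ) (h1 b (hab b hb)))
  · have hsub : w.New B x (y * κ) ⊆ (w.New B x y \ w.W (w.π Q y) y) ∪
        w.W (w.π Q (w.π B y)) (w.π Q y * κ) ∪ w.W (w.π Q y * κ) (y * κ) := fun a ha => by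
      obtain ⟨h2, h3⟩ := w.mem_New.1 ha
      by_contra hn
      simp only [Finset.mem_union, not_or] at hn
      obtain ⟨⟨n1, n2⟩, n3⟩ := hn
      have s1 := ((w.nmem_W _ _ _).1 n2).trans ((w.nmem_W _ _ _).1 n3)
      have h4 : a ∈ w.W (w.π B y) (w.π Q (w.π B y)) := by
        rw [w.mem_W, s1]; exact (w.mem_W _ _ _).1 (w.π_sep h2 (w.π_mem B y))
      have s2 := (w.nmem_W _ _ _).1 (w.btw_disj (w.pass_in hlt) h4)
      refine n1 (Finset.mem_sdiff.2 ⟨w.mem_New.2 ⟨w.btw_left (w.pass_in hlt) h4, ?_⟩, ?_⟩)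
      · rw [w.mem_W, ← s2, s1]; exact (w.mem_W _ _ _).1 h3
      · exact w.btw_disj (w.pass_out hlt) (w.btw_left (w.π_d Q _ (w.π_mem Q y)) h4)
    have c1 := Finset.card_le_card hsub
    have c2 := Finset.card_union_le ((w.New B x y \ w.W (w.π Q y) y) ∪
        w.W (w.π Q (w.π B y)) (w.π Q y * κ)) (w.W (w.π Q y * κ) (y * κ))
    have c3 := Finset.card_union_le (w.New B x y \ w.W (w.π Q y) y)
      (w.W (w.π Q (w.π B y)) (w.π Q y * κ))
    have c4 := Finset.card_sdiff_add_card_eq_card (show w.W (w.π Q y) y ⊆ w.New B x y from hab)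
    unfold PreWS.d at t6 hδ
    omega

lemma process (B : C) (x y : X) (t δ₀ : ℕ) (Nr : ℕ → J → Prop) (hx : w.Min B x)
    (hxy : w.d x y ≤ t) (hN : ∀ i a, Nr i a → Nr (i + 1) a)
    (hK : ∀ i a, ∀ k ∈ w.KK, Nr i a → Nr i (w.aw a k)) (h0 : ∀ a ∈ w.W x y, Nr 0 a)
    (hQ : ∀ Q, w.g Q ≤ 20 * t → w.δ Q ≤ δ₀ ∧ ∀ i a a', w.Cross a (w.cell Q) → Nr i a →
      w.Cross a' (w.cell Q) → Nr (i + 1) a') :
    ∃ k ∈ w.KK, w.Good B (y * k) ∧ (∀ a ∈ w.WB B x, ¬ Nr (2 * t) a → a ∈ w.WB B (y * k)) ∧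
      (∀ a ∈ w.WB B (y * k), a ∈ w.WB B x ∨ Nr (2 * t) a) ∧
      (w.WB B x \ w.WB B (y * k)).card ≤ 2 * t + 2 * t * δ₀ ∧
      (w.WB B (y * k) \ w.WB B x).card ≤ t + 2 * t * δ₀ := by
  have hlow : ∀ k ∈ w.KK, w.d (w.π B x) x ≤ w.d (w.π B (y * k)) (y * k) + t := fun k hk => by
    have t1 : w.d _ _ ≤ w.d _ _ := hx k hk
    have t2 := w.π_le B (x * k) (w.π_mem B (y * k))
    have t3 := w.d_tri (w.π B (y * k)) (y * k) (x * k)
    have t4 := w.d_mul y x k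
    have t5 := w.d_comm x y
    omega
  have key : ∀ l, (∃ k ∈ w.KK, w.Good B (y * k) ∧ (∀ a ∈ w.W x (y * k), Nr l a) ∧
      (w.New B x (y * k)).card ≤ t + l * δ₀) ∨
      ∃ k ∈ w.KK, w.d (w.π B (y * k)) (y * k) + l ≤ w.d (w.π B x) x + t ∧
        (∀ a ∈ w.W x (y * k), Nr l a) ∧ (w.New B x (y * k)).card ≤ t + l * δ₀ := by
    intro l
    induction l with
    | zero =>
      refine Or.inr ⟨1, one_mem _, ?_, by simpa using h0, ?_⟩
      · have t2 := w.π_le B y (w.π_mem B x)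
        have t3 := w.d_tri (w.π B x) x y
        rw [mul_one]; omega
      · rw [mul_one]
        have : w.New B x y ⊆ w.W x y := fun a ha => (w.mem_New.1 ha).2
        have := Finset.card_le_card this
        unfold PreWS.d at hxy
        omega
    | succ l ih =>
      rcases ih with ⟨k, hk, h1, h2, h3⟩ | ⟨k, hk, h1, h2, h3⟩
      · exact Or.inl ⟨k, hk, h1, fun a ha => hN _ _ (h2 a ha), by rw [add_mul]; omega⟩
      by_cases hg : w.Good B (y * k)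
      · exact Or.inl ⟨k, hk, hg, fun a ha => hN _ _ (h2 a ha), by rw [add_mul]; omega⟩
      obtain ⟨κ, hκ, e1, e2, e3⟩ := w.proc_step (t := t) (δ₀ := δ₀) hx (hN l) (hK l)
        (fun Q h => ⟨(hQ Q h).1, (hQ Q h).2 l⟩) hg (fun k' hk' => by
          have := hlow _ (mul_mem hk hk')
          rw [← mul_assoc] at this
          omega) (fun a ha => h2 a (w.mem_New.1 ha).2)
      refine Or.inr ⟨k * κ, mul_mem hk hκ, ?_, fun a ha => ?_, ?_⟩
      · rw [← mul_assoc]; omega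
      · rw [← mul_assoc] at ha
        rcases Finset.mem_union.1 (w.W_sub x (y * k) _ ha) with h | h
        · exact hN _ _ (h2 a h)
        · exact e2 a h
      · rw [← mul_assoc, add_mul]; omega
  have fin : ∃ k ∈ w.KK, w.Good B (y * k) ∧ (∀ a ∈ w.W x (y * k), Nr (2 * t) a) ∧
      (w.New B x (y * k)).card ≤ t + 2 * t * δ₀ := by
    rcases key (2 * t) with h | ⟨k, hk, h1, h2, h3⟩
    · exact h
    refine ⟨k, hk, ?_, h2, h3⟩
    by_contra hg
    obtain ⟨κ, hκ, e1, -⟩ := w.proc_step (t := t) (δ₀ := δ₀) hx (hN (2 * t)) (hK (2 * t))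
      (fun Q h => ⟨(hQ Q h).1, (hQ Q h).2 _⟩) hg (fun k' hk' => by
        have := hlow _ (mul_mem hk hk')
        rw [← mul_assoc] at this
        omega) (fun a ha => h2 a (w.mem_New.1 ha).2)
    have := hlow _ (mul_mem hk hκ)
    rw [← mul_assoc] at this
    omega
  obtain ⟨k, hk, h1, h2, h3⟩ := fin
  have hs : w.WB B (y * k) \ w.WB B x ⊆ w.New B x (y * k) := fun a ha =>
    Finset.mem_filter.2 ⟨(Finset.mem_sdiff.1 ha).1, Or.inl (Finset.mem_sdiff.1 ha).2⟩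
  have c1 := Finset.card_le_card hs
  refine ⟨k, hk, h1, fun a ha hn => w.WB_of_sec ha fun h => hn (h2 a h), fun a ha => ?_, ?_,
    by omega⟩
  · by_cases h : a ∈ w.W x (y * k)
    · exact Or.inr (h2 a h)
    · exact Or.inl (w.WB_of_sec ha (w.W_comm _ _ ▸ h))
  · have c2 := Finset.card_sdiff_add_card_inter (w.WB B x) (w.WB B (y * k))
    have c3 := Finset.card_sdiff_add_card_inter (w.WB B (y * k)) (w.WB B x)
    rw [Finset.inter_comm] at c3
    have c4 := hlow k hk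
    rw [← WB_card, ← WB_card] at c4
    omega

end WS

end Pool.Agent.P.MP_9167e9_an
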