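import Pool.Agent.P.MP_9167e9_an.Ws.Short
import Pool.Agent.P.MP_9167e9_an.Ws.First
import Pool.Agent.P.MP_9167e9_an.Ws.Process

/-!
The small cancellation theory from the Greendlinger property.
-/

namespace Pool.Agent.P.MP_9167e9_an

theorem WS.out_of_green {X J : Type} {C : Type 1} [Group X] (w : WS X J C) (hG : w.GreenP) :
    WSOut w :=
  ⟨w.normal, w.π_ac, w.WB_ac, w.Bot_ac, w.run_ac, w.good_ac, w.min_ac, w.heavy_ac, w.sep, w.pass,
    hG, w.geo, w.min_ex, w.min_good, w.min_sub, w.good_sub, w.first hG, w.cons hG, w.gatecons hG,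
    w.bot_keep, w.meet_keep, w.uniq, w.lowest, w.bot_ex, w.bot_car, w.process⟩

end Pool.Agent.P.MP_9167e9_an
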