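import Pool.Agent.P.MP_9167e9_an.Ws.Pre

/-!
Equivariance, the passing lemma and minimal points.
-/

noncomputable section
open scoped Classical

namespace Pool.Agent.P.MP_9167e9_an

namespace WS

variable {X J : Type} {C : Type 1} [Group X] (w : WS X J C)

lemma ac_inv (Q : C) (g : X) : w.ac (w.ac Q g) g⁻¹ = Q := by
  rw [w.ac_mul, mul_inv_cancel, w.ac_one]

lemma ac_inv' (Q : C) (g : X) : w.ac (w.ac Q g⁻¹) g = Q := by
  rw [w.ac_mul, inv_mul_cancel, w.ac_one]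

lemma ac_inj {Q Q' : C} {g : X} (h : w.ac Q g = w.ac Q' g) : Q = Q' := by
  rw [← w.ac_inv Q g, h, ac_inv]

lemma cell_ac_iff (Q : C) (x g : X) : x * g ∈ w.cell (w.ac Q g) ↔ x ∈ w.cell Q :=
  ⟨fun h => by simpa only [ac_inv, mul_inv_cancel_right] using w.cell_ac _ _ g⁻¹ h,
    w.cell_ac Q x g⟩

lemma cell_K {Q : C} {x k : X} (hx : x ∈ w.cell Q) (hk : k ∈ w.K Q) : x * k ∈ w.cell Q := by
  have := w.cell_ac Q x k hx
  rwa [w.K_fix Q k hk] at this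

lemma K_ac_iff (Q : C) (k g : X) : g⁻¹ * k * g ∈ w.K (w.ac Q g) ↔ k ∈ w.K Q :=
  ⟨fun h => by
    have := w.K_ac _ _ g⁻¹ h
    rw [ac_inv] at this
    simpa [mul_assoc] using this, w.K_ac Q k g⟩

lemma K_ac' {Q : C} {k g : X} (h : k ∈ w.K (w.ac Q g)) : g * k * g⁻¹ ∈ w.K Q := by
  have := w.K_ac _ _ g⁻¹ h
  rwa [ac_inv, inv_inv] at this

lemma K_le (Q : C) : w.K Q ≤ w.KK := le_iSup w.K Q

lemma normal : w.KK.Normal := by
  refine ⟨fun k hk g => ?_⟩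
  refine Subgroup.iSup_induction w.K (C := fun k => g * k * g⁻¹ ∈ w.KK) hk ?_ (by simp) ?_
  · intro Q k hk
    simpa using w.K_le _ (w.K_ac Q k g⁻¹ hk)
  · intro x y hx hy
    simpa [mul_assoc] using w.KK.mul_mem hx hy

lemma π_mem (Q : C) (x : X) : w.π Q x ∈ w.cell Q := (w.π_gate Q x).1

lemma π_d (Q : C) (x : X) {t : X} (ht : t ∈ w.cell Q) :
    w.d x t = w.d x (w.π Q x) + w.d (w.π Q x) t := (w.π_gate Q x).2 t ht

lemma π_le (Q : C) (x : X) {t : X} (ht : t ∈ w.cell Q) : w.d (w.π Q x) x ≤ w.d t x := by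
  rw [w.d_comm t, w.π_d Q x ht, w.d_comm]; omega

lemma π_eq {Q : C} {x c : X} (h : w.Gate (w.cell Q) x c) : w.π Q x = c :=
  w.gate_uniq _ x _ _ (w.π_gate Q x) h

lemma π_self {Q : C} {x : X} (hx : x ∈ w.cell Q) : w.π Q x = x := w.π_eq (w.gate_self hx)

lemma π_π (Q : C) (x : X) : w.π Q (w.π Q x) = w.π Q x := w.π_self (w.π_mem Q x)

/-- A point between `x` and its gate has the same gate. -/
lemma π_btw {Q : C} {x z : X} (h : w.d (w.π Q x) x = w.d (w.π Q x) z + w.d z x) :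
    w.π Q z = w.π Q x :=
  w.π_eq (w.gate_btw (w.π_gate Q x) (by
    rw [w.d_comm x, w.d_comm x, w.d_comm z (w.π Q x)]; omega))

lemma cell_convex {Q : C} {x y z : X} (hx : x ∈ w.cell Q) (hy : y ∈ w.cell Q)
    (h : w.d x y = w.d x z + w.d z y) : z ∈ w.cell Q :=
  w.convex _ (fun x => ⟨_, w.π_gate Q x⟩) x hx y hy z h

lemma π_ac (Q : C) (x g : X) : w.π (w.ac Q g) (x * g) = w.π Q x * g := by
  refine w.π_eq ⟨w.cell_ac _ _ _ (w.π_mem Q x), fun t ht => ?_⟩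
  obtain ⟨s, rfl⟩ : ∃ s, t = s * g := ⟨t * g⁻¹, by simp⟩
  rw [w.d_mul, w.d_mul, w.d_mul]
  exact w.π_d Q x ((w.cell_ac_iff _ _ _).1 ht)

lemma π_K {Q : C} {k : X} (hk : k ∈ w.K Q) (x : X) : w.π Q (x * k) = w.π Q x * k := by
  have := w.π_ac Q x k
  rwa [w.K_fix Q k hk] at this

lemma π_W (Q : C) (x y : X) (a : J) :
    a ∈ w.W (w.π Q x) (w.π Q y) ↔ a ∈ w.W x y ∧ w.Cross a (w.cell Q) :=
  w.gate_W _ x y _ _ (w.π_gate Q x) (w.π_gate Q y) a

lemma π_ncross {Q : C} {x : X} {a : J} (ha : a ∈ w.W (w.π Q x) x) : ¬ w.Cross a (w.cell Q) :=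
  w.gate_ncross (w.π_gate Q x) (w.W_comm _ _ ▸ ha)

lemma π_sep {Q : C} {x : X} {a : J} (ha : a ∈ w.W (w.π Q x) x) {b : X} (hb : b ∈ w.cell Q) :
    a ∈ w.W b x := (w.gate_sep _ x _ (w.π_gate Q x) a).1 ha b hb

/-- A wall not crossing `Q` that separates `x` from a point of `Q` separates `x` from its gate. -/
lemma sep_π {Q : C} {x q : X} {a : J} (hn : ¬ w.Cross a (w.cell Q)) (hq : q ∈ w.cell Q)
    (ha : a ∈ w.W q x) : a ∈ w.W (w.π Q x) x := by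
  rw [w.mem_W, w.ncross_sec hn (w.π_mem Q x) hq]
  exact (w.mem_W _ _ _).1 ha

lemma cross_of {Q : C} {x y : X} {a : J} (hx : x ∈ w.cell Q) (hy : y ∈ w.cell Q)
    (ha : a ∈ w.W x y) : w.Cross a (w.cell Q) := ⟨x, hx, y, hy, ha⟩

/-- A wall crossing a cell has a carrier point in the cell. -/
lemma cross_car {Q : C} {a : J} (h : w.Cross a (w.cell Q)) : ∃ c ∈ w.car a, c ∈ w.cell Q := by
  obtain ⟨u, hu, v, hv, ha⟩ := h
  obtain ⟨c, hc, e⟩ := w.thr a u v ha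
  exact ⟨c, hc, w.cell_convex hu hv e⟩

/-- A wall between `x` and its gate has a carrier point with the same gate. -/
lemma π_car {Q : C} {x : X} {a : J} (ha : a ∈ w.W (w.π Q x) x) :
    ∃ c ∈ w.car a, w.π Q c = w.π Q x := by
  obtain ⟨c, hc, e⟩ := w.thr a _ _ ha
  exact ⟨c, hc, w.π_btw e⟩

lemma car_aw_iff (a : J) (x g : X) : x * g ∈ w.car (w.aw a g) ↔ x ∈ w.car a :=
  ⟨fun h => by simpa only [w.aw_inv, mul_inv_cancel_right] using w.car_aw _ _ g⁻¹ h,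
    w.car_aw a x g⟩

lemma WB_ac (B : C) (x g : X) (a : J) :
    w.aw a g ∈ w.WB (w.ac B g) (x * g) ↔ a ∈ w.WB B x := by
  unfold WB; rw [π_ac, w.W_aw]

lemma WB_card (B : C) (x : X) : (w.WB B x).card = w.d (w.π B x) x := rfl

lemma adj_ac (B : C) (g : X) (a : J) : w.Adj (w.ac B g) (w.aw a g) ↔ w.Adj B a := by
  constructor
  · rintro ⟨b, h1, h2⟩
    obtain ⟨s, rfl⟩ : ∃ s, b = s * g := ⟨b * g⁻¹, by simp⟩
    exact ⟨s, (w.cell_ac_iff _ _ _).1 h1, (w.car_aw_iff _ _ _).1 h2⟩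
  · rintro ⟨b, h1, h2⟩
    exact ⟨b * g, w.cell_ac _ _ _ h1, w.car_aw _ _ _ h2⟩

lemma Bot_ac (B : C) (x g : X) (a : J) :
    w.aw a g ∈ w.Bot (w.ac B g) (x * g) ↔ a ∈ w.Bot B x := by
  unfold Bot; rw [Finset.mem_filter, Finset.mem_filter, WB_ac, adj_ac]

lemma run_ac (Q : C) (x y g : X) : w.run (w.ac Q g) (x * g) (y * g) = w.run Q x y := by
  unfold run; rw [π_ac, π_ac, w.d_mul]

lemma good_ac (B : C) (x g : X) (h : w.Good B x) : w.Good (w.ac B g) (x * g) := by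
  intro Q k hk
  obtain ⟨Q, rfl⟩ : ∃ Q', Q = w.ac Q' g := ⟨w.ac Q g⁻¹, (w.ac_inv' Q g).symm⟩
  have h1 := h Q _ (w.K_ac' hk)
  rw [π_ac, run_ac, π_ac, π_ac, w.g_ac]
  rw [← w.d_mul _ _ g] at h1
  simpa [mul_assoc] using h1

lemma min_ac (B : C) (x g : X) (h : w.Min B x) : w.Min (w.ac B g) (x * g) := by
  intro k hk
  have h1 := h _ (w.normal.conj_mem k hk g)
  have e : x * g * k = x * (g * k * g⁻¹) * g := by simp [mul_assoc]
  rw [WB_card, WB_card] at h1 ⊢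
  rwa [e, π_ac, π_ac, w.d_mul, w.d_mul]

lemma heavy_ac (B Q : C) (x g : X) (h : w.Heavy B Q x) :
    w.Heavy (w.ac B g) (w.ac Q g) (x * g) := by
  unfold Heavy at h ⊢
  rwa [π_ac, run_ac, w.g_ac]

lemma run_comm (Q : C) (x y : X) : w.run Q x y = w.run Q y x := w.d_comm _ _

lemma run_tri (Q : C) (x y z : X) : w.run Q x z ≤ w.run Q x y + w.run Q y z := w.d_tri _ _ _

lemma run_self (Q : C) (x : X) : w.run Q x x = 0 := w.d_self _

lemma run_base (B : C) (x : X) : w.run B (w.π B x) x = 0 := by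
  unfold run; rw [π_π, w.d_self]

lemma run_cell {Q Q' : C} (h : Q ≠ Q') {x y : X} (hx : x ∈ w.cell Q') (hy : y ∈ w.cell Q') :
    w.run Q x y ≤ w.θ Q := w.ax2 Q Q' x y h hx hy

lemma run_add (Q : C) {x y z : X} (h : w.d x z = w.d x y + w.d y z) :
    w.run Q x z = w.run Q x y + w.run Q y z :=
  w.d_add _ _ _ fun a h1 h2 =>
    w.btw_disj h ((w.π_W Q x y a).1 h1).1 ((w.π_W Q y z a).1 h2).1

lemma run_le (Q : C) (x y : X) : w.run Q x y ≤ w.d x y :=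
  Finset.card_le_card fun a ha => ((w.π_W Q x y a).1 ha).1

lemma g_pos (Q : C) : 1000 ≤ w.g Q := by
  have := w.θ_pos Q; have := w.big Q; omega

lemma sep (Q : C) (a : J) (x y q : X) (hn : ¬ w.Cross a (w.cell Q)) (hq : q ∈ w.cell Q)
    (hx : a ∈ w.W q x) (hy : a ∈ w.W q y) : w.run Q x y ≤ w.θ Q := by
  obtain ⟨c, hc, e⟩ := w.π_car (w.sep_π hn hq hx)
  obtain ⟨c', hc', e'⟩ := w.π_car (w.sep_π hn hq hy)
  have := w.ax1 Q a c c' hn hc hc'
  rwa [e, e'] at this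

lemma pass (Q : C) (x y : X) (h : w.θ Q < w.run Q x y) :
    w.d x y = w.d x (w.π Q x) + w.run Q x y + w.d (w.π Q y) y := by
  have h1 : w.d x y = w.d x (w.π Q y) + w.d (w.π Q y) y := w.d_add _ _ _ fun a ha hb => by
    have := w.sep Q a x y _ (w.π_ncross hb) (w.π_mem Q y) (w.W_comm _ _ ▸ ha) hb
    omega
  rw [h1, w.π_d Q x (w.π_mem Q y)]; rfl

/-- The entry gate lies between `x` and `y`. -/
lemma pass_in {Q : C} {x y : X} (h : w.θ Q < w.run Q x y) :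
    w.d x y = w.d x (w.π Q x) + w.d (w.π Q x) y := by
  have h1 := w.pass Q x y h
  have h2 := w.π_d Q y (w.π_mem Q x)
  rw [w.d_comm y, w.d_comm y, w.d_comm (w.π Q y) (w.π Q x)] at h2
  unfold run at h1
  omega

/-- The exit gate lies between `x` and `y`. -/
lemma pass_out {Q : C} {x y : X} (h : w.θ Q < w.run Q x y) :
    w.d x y = w.d x (w.π Q y) + w.d (w.π Q y) y := by
  rw [w.pass Q x y h, w.π_d Q x (w.π_mem Q y)]; rfl

lemma geo (x y : X) (h : ∀ k ∈ w.KK, w.d x y ≤ w.d x (y * k)) (Q : C) (κ : X) (hκ : κ ∈ w.K Q) :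
    w.run Q x y ≤ w.d (w.π Q x) (w.π Q y * κ) + w.θ Q := by
  by_contra hc
  have h1 := w.pass Q x y (by omega)
  have h2 := h κ (w.K_le Q hκ)
  have t1 := w.d_tri x (w.π Q x) (y * κ)
  have t2 := w.d_tri (w.π Q x) (w.π Q y * κ) (y * κ)
  have t3 := w.d_mul (w.π Q y) y κ
  omega

lemma min_ex (B : C) (x : X) : ∃ k ∈ w.KK, w.Min B (x * k) := by
  have h : ∃ n, ∃ k ∈ w.KK, (w.WB B (x * k)).card = n := ⟨_, 1, w.KK.one_mem, rfl⟩
  obtain ⟨k, hk, e⟩ := Nat.find_spec h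
  refine ⟨k, hk, fun k' hk' => ?_⟩
  rw [e, mul_assoc]
  exact Nat.find_min' h ⟨k * k', w.KK.mul_mem hk hk', rfl⟩

lemma min_geo {B : C} {x : X} (h : w.Min B x) (Q : C) (κ : X) (hκ : κ ∈ w.K Q) :
    w.run Q (w.π B x) x ≤ w.d (w.π Q (w.π B x)) (w.π Q x * κ) + w.θ Q :=
  w.geo _ _ (fun k hk => (h k hk).trans (w.π_le B _ (w.π_mem B x))) Q κ hκ

lemma min_good (B : C) (x : X) (h : w.Min B x) : w.Good B x := fun Q k hk => by
  have := w.min_geo h Q k hk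
  have := w.big Q
  omega

lemma min_sub (B : C) (x z : X) (hz : w.d (w.π B x) x = w.d (w.π B x) z + w.d z x)
    (h : w.Min B x) : w.Min B z := fun k hk => by
  have h1 := h k hk
  rw [WB_card, WB_card] at h1 ⊢
  rw [w.π_btw hz]
  have h2 := w.π_le B (x * k) (w.π_mem B (z * k))
  have h3 := w.d_tri (w.π B (z * k)) (z * k) (x * k)
  have h4 := w.d_mul z x k
  omega

lemma good_sub (B : C) (x z : X) (hz : w.d (w.π B x) x = w.d (w.π B x) z + w.d z x)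
    (h : w.Good B x) : w.π B z = w.π B x ∧ w.Good B z := by
  refine ⟨w.π_btw hz, fun Q k hk => ?_⟩
  have h1 := h Q k hk
  rw [w.π_btw hz]
  rw [w.run_add Q hz] at h1
  have h2 := w.d_tri (w.π Q (w.π B x)) (w.π Q z * k) (w.π Q x * k)
  have h3 : w.d (w.π Q z * k) (w.π Q x * k) = w.run Q z x := w.d_mul _ _ _
  omega

lemma heavy_ne {B Q : C} {x : X} (h : w.Heavy B Q x) : Q ≠ B := by
  rintro rfl
  unfold Heavy at h
  have := w.g_pos Q
  rw [run_base] at h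
  omega

lemma heavy_big {B Q : C} {x : X} (h : w.Heavy B Q x) :
    400 * w.θ Q ≤ w.run Q (w.π B x) x := by
  unfold Heavy at h
  have := w.big Q
  omega

lemma heavy_lt {B Q : C} {x : X} (h : w.Heavy B Q x) : w.θ Q < w.run Q (w.π B x) x := by
  have := w.heavy_big h
  have := w.θ_pos Q
  omega

end WS

end Pool.Agent.P.MP_9167e9_an
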