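import Pool.Agent.P.MP_9167e9_an.StW

/-!
Elementary facts on wall spaces and gates.
-/

noncomputable section
open scoped Classical

namespace Pool.Agent.P.MP_9167e9_an

namespace PreWS

variable {X J : Type} [Group X] (w : PreWS X J)

lemma W_comm (x y : X) : w.W x y = w.W y x := by
  ext a; simp only [w.mem_W]; exact ne_comm

lemma nmem_W (a : J) (x y : X) : a ∉ w.W x y ↔ w.sec a x = w.sec a y := by
  rw [w.mem_W, not_not]

lemma W_sub (x y z : X) : w.W x z ⊆ w.W x y ∪ w.W y z := by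
  intro a ha
  rw [Finset.mem_union, w.mem_W, w.mem_W]
  rw [w.mem_W] at ha
  by_contra h
  push Not at h
  exact ha (h.1.trans h.2)

lemma d_comm (x y : X) : w.d x y = w.d y x := by unfold d; rw [W_comm]

lemma d_tri (x y z : X) : w.d x z ≤ w.d x y + w.d y z :=
  (Finset.card_le_card (w.W_sub x y z)).trans (Finset.card_union_le _ _)

lemma W_self (x : X) : w.W x x = ∅ := by
  ext a; simp [w.mem_W]

lemma d_self (x : X) : w.d x x = 0 := by unfold d; rw [W_self]; rfl

lemma d_zero (x y : X) : w.d x y = 0 ↔ x = y := by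
  refine ⟨fun h => ?_, fun h => h ▸ w.d_self x⟩
  by_contra hne
  obtain ⟨z, a, -, ha, -⟩ := w.step x y hne
  rw [d, Finset.card_eq_zero] at h
  simp [h] at ha

lemma aw_inv (a : J) (g : X) : w.aw (w.aw a g) g⁻¹ = a := by
  rw [w.aw_mul, mul_inv_cancel, w.aw_one]

lemma aw_inv' (a : J) (g : X) : w.aw (w.aw a g⁻¹) g = a := by
  rw [w.aw_mul, inv_mul_cancel, w.aw_one]

lemma aw_inj (g : X) : Function.Injective fun a => w.aw a g := fun a b h => by
  have := congrArg (fun c => w.aw c g⁻¹) h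
  simpa only [aw_inv] using this

lemma W_mul (x y g : X) : w.W (x * g) (y * g) = (w.W x y).image fun a => w.aw a g := by
  ext a
  rw [Finset.mem_image]
  constructor
  · intro h
    exact ⟨w.aw a g⁻¹, (w.W_aw _ x y g).1 (by rwa [aw_inv']), w.aw_inv' a g⟩
  · rintro ⟨b, hb, rfl⟩
    exact (w.W_aw b x y g).2 hb

lemma d_mul (x y g : X) : w.d (x * g) (y * g) = w.d x y := by
  unfold d; rw [W_mul, Finset.card_image_of_injective _ (w.aw_inj g)]

lemma W_add (x y z : X) (h : w.d x z = w.d x y + w.d y z) :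
    w.W x z = w.W x y ∪ w.W y z ∧ Disjoint (w.W x y) (w.W y z) := by
  have h1 := Finset.card_le_card (w.W_sub x y z)
  have h2 := Finset.card_union_le (w.W x y) (w.W y z)
  unfold d at h
  exact ⟨Finset.eq_of_subset_of_card_le (w.W_sub x y z) (by omega),
    Finset.card_union_eq_card_add_card.1 (by omega)⟩

/-- Betweenness from disjointness. -/
lemma d_add (x y z : X) (h : ∀ a ∈ w.W x y, a ∉ w.W y z) : w.d x z = w.d x y + w.d y z := by
  refine le_antisymm (w.d_tri x y z) ?_
  unfold d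
  rw [← Finset.card_union_of_disjoint (Finset.disjoint_left.2 h)]
  refine Finset.card_le_card fun a ha => ?_
  rw [w.mem_W]
  rcases Finset.mem_union.1 ha with h1 | h1
  · have h2 := (w.nmem_W _ _ _).1 (h a h1)
    rw [← h2]; exact (w.mem_W _ _ _).1 h1
  · have h2 : a ∉ w.W x y := fun h3 => h a h3 h1
    rw [(w.nmem_W _ _ _).1 h2]; exact (w.mem_W _ _ _).1 h1

lemma btw_left {x y z : X} (h : w.d x z = w.d x y + w.d y z) {a : J} (ha : a ∈ w.W x y) :
    a ∈ w.W x z := by
  rw [(w.W_add x y z h).1]; exact Finset.mem_union_left _ ha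

lemma btw_right {x y z : X} (h : w.d x z = w.d x y + w.d y z) {a : J} (ha : a ∈ w.W y z) :
    a ∈ w.W x z := by
  rw [(w.W_add x y z h).1]; exact Finset.mem_union_right _ ha

lemma btw_disj {x y z : X} (h : w.d x z = w.d x y + w.d y z) {a : J} (ha : a ∈ w.W x y) :
    a ∉ w.W y z := Finset.disjoint_left.1 (w.W_add x y z h).2 ha

lemma gate_uniq (T : Set X) (x c c' : X) (h : w.Gate T x c) (h' : w.Gate T x c') : c = c' := by
  have h1 := h.2 c' h'.1
  have h2 := h'.2 c h.1
  exact (w.d_zero _ _).1 (by omega)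

/-- A wall between a point and its gate is constant on the set. -/
lemma gate_const {T : Set X} {x c : X} (h : w.Gate T x c) {a : J} (ha : a ∈ w.W x c) {t : X}
    (ht : t ∈ T) : w.sec a c = w.sec a t :=
  (w.nmem_W _ _ _).1 (w.btw_disj (h.2 t ht) ha)

lemma gate_ncross {T : Set X} {x c : X} (h : w.Gate T x c) {a : J} (ha : a ∈ w.W x c) :
    ¬ w.Cross a T := by
  rintro ⟨u, hu, v, hv, huv⟩
  exact (w.mem_W _ _ _).1 huv ((w.gate_const h ha hu).symm.trans (w.gate_const h ha hv))

lemma ncross_sec {T : Set X} {a : J} (h : ¬ w.Cross a T) {u v : X} (hu : u ∈ T) (hv : v ∈ T) :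
    w.sec a u = w.sec a v := by
  by_contra h1
  exact h ⟨u, hu, v, hv, (w.mem_W _ _ _).2 h1⟩

lemma gate_sec {T : Set X} {x c : X} (h : w.Gate T x c) {a : J} (ha : w.Cross a T) :
    w.sec a x = w.sec a c :=
  (w.nmem_W _ _ _).1 fun h1 => w.gate_ncross h h1 ha

lemma gate_W (T : Set X) (x y c e : X) (h : w.Gate T x c) (h' : w.Gate T y e) (a : J) :
    a ∈ w.W c e ↔ a ∈ w.W x y ∧ w.Cross a T := by
  constructor
  · intro ha
    have hc : w.Cross a T := ⟨c, h.1, e, h'.1, ha⟩
    refine ⟨?_, hc⟩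
    rw [w.mem_W, w.gate_sec h hc, w.gate_sec h' hc]
    exact (w.mem_W _ _ _).1 ha
  · rintro ⟨ha, hc⟩
    rw [w.mem_W, ← w.gate_sec h hc, ← w.gate_sec h' hc]
    exact (w.mem_W _ _ _).1 ha

lemma gate_sep (T : Set X) (x c : X) (h : w.Gate T x c) (a : J) :
    a ∈ w.W c x ↔ ∀ b ∈ T, a ∈ w.W b x := by
  refine ⟨fun ha b hb => ?_, fun ha => ha c h.1⟩
  rw [W_comm] at ha ⊢
  exact w.btw_left (h.2 b hb) ha

lemma convex (T : Set X) (hT : ∀ x, ∃ c, w.Gate T x c) (x : X) (hx : x ∈ T) (y : X) (hy : y ∈ T)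
    (z : X) (h : w.d x y = w.d x z + w.d z y) : z ∈ T := by
  obtain ⟨c, hc⟩ := hT z
  have : w.d c z = 0 := by
    rw [d, Finset.card_eq_zero, Finset.eq_empty_iff_forall_notMem]
    intro a ha
    have h1 := (w.gate_sep T z c hc a).1 ha
    exact w.btw_disj h (h1 x hx) (w.W_comm _ _ ▸ h1 y hy)
  exact (w.d_zero _ _).1 this ▸ hc.1

lemma step' (x y : X) (h : x ≠ y) :
    ∃ z a, w.W x z = {a} ∧ a ∈ w.W x y ∧ w.d x z = 1 ∧ w.d x y = 1 + w.d z y := by
  obtain ⟨z, a, h1, h2, h3⟩ := w.step x y h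
  have h4 : w.d x z = 1 := by rw [d, h1, Finset.card_singleton]
  refine ⟨z, a, h1, h2, h4, ?_⟩
  rw [← h4]
  refine w.d_add x z y fun b hb => ?_
  rw [h1, Finset.mem_singleton] at hb
  exact hb ▸ h3

lemma through (a : J) (x y : X) (ha : a ∈ w.W x y) :
    ∃ c c', w.W c c' = {a} ∧ w.d x y = w.d x c + 1 + w.d c' y := by
  induction hn : w.d x y generalizing x with
  | zero => rw [d, Finset.card_eq_zero] at hn; simp [hn] at ha
  | succ n ih =>
    have hne : x ≠ y := fun h => by rw [h, d_self] at hn; omega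
    obtain ⟨z, b, h1, h2, h3, h4⟩ := w.step' x y hne
    by_cases hb : b = a
    · exact ⟨x, z, hb ▸ h1, by rw [d_self]; omega⟩
    · have hz : a ∈ w.W z y := by
        rcases Finset.mem_union.1 (w.W_sub x z y ha) with h | h
        · rw [h1, Finset.mem_singleton] at h; exact absurd h.symm hb
        · exact h
      obtain ⟨c, c', e1, e2⟩ := ih z hz (by omega)
      refine ⟨c, c', e1, ?_⟩
      have t1 := w.d_tri x z c
      have t2 := w.d_tri x c y
      have t3 := w.d_tri c c' y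
      have t4 : w.d c c' = 1 := by rw [d, e1, Finset.card_singleton]
      omega

lemma between (x y : X) (n : ℕ) (h : n ≤ w.d x y) :
    ∃ z, w.d x z = n ∧ w.d x y = w.d x z + w.d z y := by
  induction n with
  | zero => exact ⟨x, w.d_self x, by rw [d_self]; omega⟩
  | succ n ih =>
    obtain ⟨z, h1, h2⟩ := ih (by omega)
    have hne : z ≠ y := fun e => by rw [e, d_self] at h2; rw [e] at h1; omega
    obtain ⟨z', b, -, -, h3, h4⟩ := w.step' z y hne
    have t1 := w.d_tri x z z'
    have t2 := w.d_tri x z' y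
    exact ⟨z', by omega, by omega⟩

/-- A wall between `x` and `y` has a carrier point between them. -/
lemma thr (a : J) (x y : X) (ha : a ∈ w.W x y) :
    ∃ c ∈ w.car a, w.d x y = w.d x c + w.d c y := by
  obtain ⟨c, c', e1, e2⟩ := w.through a x y ha
  have t2 := w.d_tri x c y
  have t3 := w.d_tri c c' y
  have t4 : w.d c c' = 1 := by rw [d, e1, Finset.card_singleton]
  exact ⟨c, w.car_step c c' a e1, by omega⟩

/-- A point between `x` and its gate has the same gate. -/
lemma gate_btw {T : Set X} {x c z : X} (h : w.Gate T x c) (hz : w.d x c = w.d x z + w.d z c) :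
    w.Gate T z c := by
  refine ⟨h.1, fun t ht => ?_⟩
  have h1 := h.2 t ht
  have t1 := w.d_tri x z t
  have t2 := w.d_tri z c t
  omega

lemma gate_self {T : Set X} {x : X} (hx : x ∈ T) : w.Gate T x x :=
  ⟨hx, fun t _ => by rw [d_self]; omega⟩

lemma car_gate' (a : J) (h : (w.car a).Nonempty) (x : X) : ∃ c, w.Gate (w.car a) x c := by
  obtain ⟨c, h1, h2⟩ := w.car_gate a x h
  exact ⟨c, h1, h2⟩

end PreWS

theorem pPre : StPre := fun _ _ _ w =>
  ⟨w.d_comm, w.d_tri, w.d_zero, w.d_mul, w.W_add, w.gate_uniq, w.gate_W, w.gate_sep, w.convex,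
    w.through, w.between⟩

end Pool.Agent.P.MP_9167e9_an
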