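import Pool.Agent.P.MP_9167e9_an.Ws.Basic

/-!
Bottom walls and heavy cells.
-/

noncomputable section
open scoped Classical

namespace Pool.Agent.P.MP_9167e9_an

namespace WS

variable {X J : Type} {C : Type 1} [Group X] (w : WS X J C)

/-- A wall above `Q` (seen from `y`) has its carrier projecting near the gate of `y`. -/
lemma above_car {Q : C} {y c : X} {a : J} (ha : a ∈ w.W (w.π Q y) y) (hc : c ∈ w.car a) :
    w.run Q c y ≤ w.θ Q := by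
  obtain ⟨c', hc', e⟩ := w.π_car ha
  have := w.ax1 Q a c c' (w.π_ncross ha) hc hc'
  rwa [e] at this

lemma bot_keep (B Q : C) (y y' : X) (a : J) (h : w.Heavy B Q y) (h' : w.Heavy B Q y')
    (ha : a ∈ w.Bot B y) (hn : ¬ w.Cross a (w.cell Q)) : a ∈ w.Bot B y' := by
  obtain ⟨ha, b, hb, hbc⟩ := Finset.mem_filter.1 ha
  refine Finset.mem_filter.2 ⟨?_, b, hb, hbc⟩
  have h1 : a ∉ w.W (w.π Q y) y := fun h1 => by
    have t1 := w.above_car h1 hbc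
    have t2 := w.run_cell (w.heavy_ne h) (w.π_mem B y) hb
    have t3 := w.run_tri Q (w.π B y) b y
    have t4 := w.heavy_big h
    have t5 := w.θ_pos Q
    omega
  refine w.btw_left (w.pass_in (w.heavy_lt h')) ?_
  rw [w.mem_W, w.ncross_sec (w.π_ncross ha) (w.π_mem B y') (w.π_mem B y),
    w.ncross_sec hn (w.π_mem Q _) (w.π_mem Q y), (w.nmem_W _ _ _).1 h1]
  exact (w.mem_W _ _ _).1 ha

lemma meet_keep (B Q Q' : C) (y y' : X) (h : w.Heavy B Q y) (h' : w.Heavy B Q y')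
    (hm : w.Meet B Q') (hne : Q' ≠ Q) :
    w.run Q' (w.π B y) y ≤ w.run Q' (w.π B y') y' + 2 * w.θ Q' := by
  by_cases hB : Q' = B
  · rw [hB, run_base]; omega
  obtain ⟨x, hxB, hxQ⟩ := hm
  have h1 : w.run Q' (w.π Q y) y = 0 := by
    unfold run PreWS.d
    rw [Finset.card_eq_zero, Finset.eq_empty_iff_forall_notMem]
    intro a ha
    obtain ⟨ha, hc⟩ := (w.π_W _ _ _ a).1 ha
    obtain ⟨c, hc1, hc2⟩ := w.cross_car hc
    have t1 := w.above_car ha hc1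
    have t2 := w.run_cell hne.symm hxQ hc2
    have t3 := w.run_cell (w.heavy_ne h) (w.π_mem B y) hxB
    have t4 := w.run_tri Q (w.π B y) x y
    have t5 := w.run_tri Q x c y
    have t6 := w.heavy_big h
    have t7 := w.θ_pos Q
    omega
  have t1 := w.run_tri Q' (w.π B y) (w.π Q y) y
  have t2 := w.run_tri Q' (w.π B y) (w.π B y') (w.π Q y)
  have t3 := w.run_tri Q' (w.π B y') (w.π Q (w.π B y')) (w.π Q y)
  have t4 := w.run_cell hB (w.π_mem B y) (w.π_mem B y')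
  have t5 := w.run_cell hne (w.π_mem Q (w.π B y')) (w.π_mem Q y)
  have t6 := w.run_add Q' (w.pass_in (w.heavy_lt h'))
  omega

/-- A point of `B` between the gate of `y` and `y` is the gate. -/
lemma gate_end {B : C} {y e : X} (he : e ∈ w.cell B)
    (h : w.d (w.π B y) y = w.d (w.π B y) e + w.d e y) : w.π B y = e := by
  have h1 := w.π_le B y he
  exact (w.d_zero _ _).1 (by omega)

lemma base_mem {B Q : C} {y : X} (hm : w.Meet B Q) (h : w.θ Q < w.run Q (w.π B y) y) :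
    w.π B y ∈ w.cell Q := by
  obtain ⟨x, hxB, hxQ⟩ := hm
  have h1 := w.cell_convex (w.π_mem B y) hxB (w.π_d Q _ hxQ)
  rw [w.gate_end h1 (w.pass_in h)]
  exact w.π_mem Q _

lemma uniq (B Q Q' : C) (y : X) (hm : w.Meet B Q) (hm' : w.Meet B Q')
    (h : 2 * w.θ Q < w.run Q (w.π B y) y) (h' : 2 * w.θ Q' < w.run Q' (w.π B y) y) : Q = Q' := by
  by_contra hne
  have b1 := w.base_mem hm (y := y) (by omega)
  have b2 := w.base_mem hm' (y := y) (by omega)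
  have t1 := w.run_cell (Ne.symm hne) b1 (w.π_mem Q y)
  have t2 := w.run_tri Q' (w.π B y) (w.π Q y) y
  have h1 : 0 < w.run Q' (w.π Q y) y := by omega
  obtain ⟨a, ha⟩ := Finset.card_pos.1 h1
  obtain ⟨ha, hc⟩ := (w.π_W _ _ _ a).1 ha
  obtain ⟨c, hc1, hc2⟩ := w.cross_car hc
  have t3 := w.above_car ha hc1
  have t4 := w.run_cell hne b2 hc2
  have t5 := w.run_tri Q (w.π B y) c y
  omega

lemma lowest (B : C) (y : X) (Q : C) (h : w.Heavy B Q y) : ∃ Q₀, w.Heavy B Q₀ y ∧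
    ∀ Q' a, w.Heavy B Q' y → w.Adj B a → w.Cross a (w.cell Q') → w.Cross a (w.cell Q₀) := by
  have hex : ∃ n, ∃ Q, w.Heavy B Q y ∧ w.d (w.π B y) (w.π Q (w.π B y)) = n := ⟨_, Q, h, rfl⟩
  obtain ⟨Q₀, h0, e⟩ := Nat.find_spec hex
  refine ⟨Q₀, h0, fun Q' a h' ⟨b, hb, hbc⟩ hc => ?_⟩
  by_contra hn
  have hne : Q₀ ≠ Q' := fun e => hn (e ▸ hc)
  have hmin := Nat.find_min' hex ⟨Q', h', rfl⟩
  obtain ⟨c, hc1, hc2⟩ := w.cross_car hc
  have t1 : w.run Q₀ b c ≤ w.θ Q₀ := w.ax1 Q₀ a b c hn hbc hc1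
  have t2 := w.run_cell (w.heavy_ne h0) (w.π_mem B y) hb
  have t3 := w.run_cell hne hc2 (w.π_mem Q' y)
  have t4 := w.run_tri Q₀ (w.π B y) b y
  have t5 := w.run_tri Q₀ b c y
  have t6 := w.run_tri Q₀ c (w.π Q' y) y
  have t7 := w.heavy_big h0
  have t8 := w.θ_pos Q₀
  have h1 : w.π Q' (w.π Q₀ y) = w.π Q' y := w.π_btw (w.pass_out (by omega))
  have s1 := w.run_cell hne.symm (w.π_mem Q₀ (w.π B y)) (w.π_mem Q₀ y)
  have s2 : w.run Q' (w.π Q₀ (w.π B y)) (w.π Q₀ y) = w.run Q' (w.π Q₀ (w.π B y)) y := by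
    unfold run; rw [h1]
  have s3 := w.run_tri Q' (w.π B y) (w.π Q₀ (w.π B y)) y
  have s4 := w.heavy_big h'
  have s5 := w.θ_pos Q'
  have s6 := w.pass Q' (w.π B y) (w.π Q₀ (w.π B y)) (by omega)
  omega

lemma bot_ex (B : C) (x : X) (a' : J) (ha : a' ∈ w.WB B x) :
    ∃ a, w.Adj B a ∧ ∀ y, a' ∈ w.WB B y → a ∈ w.WB B y := by
  obtain ⟨c₀, hc₀, -⟩ := w.π_car ha
  have hex : ∃ n, ∃ b ∈ w.cell B, ∃ c ∈ w.car a', w.d b c = n :=
    ⟨_, _, w.π_mem B x, c₀, hc₀, rfl⟩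
  obtain ⟨b, hb, c, hc, e⟩ := Nat.find_spec hex
  have hmin : ∀ b' ∈ w.cell B, ∀ c' ∈ w.car a', w.d b c ≤ w.d b' c' := fun b' hb' c' hc' =>
    e ▸ Nat.find_min' hex ⟨b', hb', c', hc', rfl⟩
  by_cases hbc : b = c
  · exact ⟨a', ⟨b, hb, hbc ▸ hc⟩, fun y hy => hy⟩
  obtain ⟨z, a, h1, h2, -⟩ := w.step b c hbc
  refine ⟨a, ⟨b, hb, w.car_step b z a h1⟩, fun y hy => ?_⟩
  obtain ⟨u, hu⟩ := w.car_gate' a' ⟨c, hc⟩ b
  have e1 : u = c := by
    have t1 := hu.2 c hc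
    have t2 := hmin b hb u hu.1
    exact (w.d_zero _ _).1 (by omega)
  have e2 : w.π B c = b := by
    have t1 := w.π_d B c hb
    have t2 := hmin _ (w.π_mem B c) c hc
    rw [w.d_comm c, w.d_comm c] at t1
    exact (w.d_zero _ _).1 (by omega)
  obtain ⟨c₁, hc₁, e3⟩ := w.thr a' _ _ hy
  refine w.btw_left e3 ?_
  rw [w.mem_W, w.ncross_sec (w.π_ncross (e2 ▸ h2 : a ∈ w.W (w.π B c) c)) (w.π_mem B y) hb,
    ← w.gate_const (e1 ▸ hu) h2 hc₁]
  exact (w.mem_W _ _ _).1 h2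

lemma bot_car (B : C) (x : X) (a : J) (ha : a ∈ w.Bot B x) : w.π B x ∈ w.car a := by
  obtain ⟨ha, b, hb, hbc⟩ := Finset.mem_filter.1 ha
  obtain ⟨c, hc, e⟩ := w.thr a _ _ ha
  obtain ⟨u, hu⟩ := w.car_gate' a ⟨c, hc⟩ (w.π B x)
  have h1 := w.cell_convex (w.π_mem B x) hb (hu.2 b hbc)
  have t1 := hu.2 c hc
  have t2 := w.d_tri u c x
  have t3 := w.d_tri (w.π B x) u x
  rw [w.gate_end h1 (by omega)]
  exact hu.1

end WS

end Pool.Agent.P.MP_9167e9_an
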